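import Pool.Agent.Helper65.AH.St

/-! Project AH, module RA: all germs tangent to the identity in a group of finite rank have the
same depth, and they commute. -/

set_option autoImplicit false

universe u

namespace Pool.Agent.Helper40.AH

open Filter Topology Pool.Agent.Helper58.RK Pool.Agent.Helper65.AH
open scoped commutatorElement

/-- an order isomorphism of the line which fixes zero preserves the filter at `0+` -/
theorem tendsto_pos (g : ℝ ≃o ℝ) (h0 : g 0 = 0) : Tendsto g (𝓝[>] (0 : ℝ)) (𝓝[>] (0 : ℝ)) := by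
  refine tendsto_nhdsWithin_iff.2 ⟨?_, ?_⟩
  · have hc : Tendsto g (𝓝 (0 : ℝ)) (𝓝 (g 0)) := g.continuous.tendsto 0
    rw [h0] at hc
    exact hc.mono_left nhdsWithin_le_nhds
  · filter_upwards [self_mem_nhdsWithin] with x hx
    have hx' : (0 : ℝ) < x := hx
    have := g.strictMono hx'
    rw [h0] at this
    exact this

theorem mul_ap (f g : ℝ ≃o ℝ) (x : ℝ) : (f * g) x = f (g x) := rfl

theorem ap_inv (f : ℝ ≃o ℝ) (x : ℝ) : f (f⁻¹ x) = x := f.apply_symm_apply x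

theorem inv_ap (f : ℝ ≃o ℝ) (x : ℝ) : f⁻¹ (f x) = x := f.symm_apply_apply x

theorem inv_zero' {f : ℝ ≃o ℝ} (h : f 0 = 0) : f⁻¹ 0 = 0 := by
  have := inv_ap f 0
  rwa [h] at this

theorem Tr_one : Tr (1 : ℝ ≃o ℝ) := Eventually.of_forall fun _ => rfl

theorem Tr_mul {f g : ℝ ≃o ℝ} (hf : Tr f) (hg : Tr g) : Tr (f * g) := by
  unfold Tr at *
  filter_upwards [hf, hg] with x h1 h2
  rw [mul_ap, h2, h1]

theorem Tr_inv {f : ℝ ≃o ℝ} (hf : Tr f) : Tr f⁻¹ := by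
  unfold Tr at *
  filter_upwards [hf] with x h1
  have := inv_ap f x
  rwa [h1] at this

theorem Tr_conj {f g : ℝ ≃o ℝ} (hg0 : g 0 = 0) (hf : Tr f) : Tr (g * f * g⁻¹) := by
  unfold Tr at *
  have h1 := (tendsto_pos g⁻¹ (inv_zero' hg0)).eventually hf
  filter_upwards [h1] with x hx
  rw [mul_ap, mul_ap, hx, ap_inv]

theorem Tr_comm_left {f g : ℝ ≃o ℝ} (hg0 : g 0 = 0) (hf : Tr f) : Tr ⁅f, g⁆ := by
  have e : ⁅f, g⁆ = f * (g * f⁻¹ * g⁻¹) := by
    rw [commutatorElement_def]; group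
  rw [e]
  exact Tr_mul hf (Tr_conj hg0 (Tr_inv hf))

theorem Tr_comm_right {f g : ℝ ≃o ℝ} (hf0 : f 0 = 0) (hg : Tr g) : Tr ⁅f, g⁆ := by
  rw [commutatorElement_def]
  exact Tr_mul (Tr_conj hf0 hg) (Tr_inv hg)

theorem Asy_of_Tr {f : ℝ ≃o ℝ} (hf : Tr f) (s : ℝ) : Asy f s 0 := by
  unfold Asy
  refine tendsto_const_nhds.congr' ?_
  filter_upwards [hf] with x hx
  rw [hx, sub_self, zero_div]

theorem Ra_iff (f : ℝ ≃o ℝ) : Ra f 1 ↔ Asy f 1 0 := by
  have key : (fun x : ℝ => (f x - x) / x ^ (1 : ℝ)) =ᶠ[𝓝[>] (0 : ℝ)] fun x => f x / x - 1 := by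
    filter_upwards [self_mem_nhdsWithin] with x hx
    have hx' : (0 : ℝ) < x := hx
    rw [Real.rpow_one, sub_div, div_self hx'.ne']
  unfold Ra Asy
  constructor
  · intro h
    have h2 : Tendsto (fun x => f x / x - 1) (𝓝[>] 0) (𝓝 (1 - 1)) := h.sub_const 1
    rw [sub_self] at h2
    exact h2.congr' key.symm
  · intro h
    have h2 := (h.congr' key).add_const 1
    rw [zero_add] at h2
    refine h2.congr fun x => ?_
    ring

theorem Asy_unique {f : ℝ ≃o ℝ} {s a b : ℝ} (h1 : Asy f s a) (h2 : Asy f s b) : a = b :=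
  tendsto_nhds_unique h1 h2

section

variable {Γ : Type u} [Group Γ]

/-- the elements with displacement `o(x ^ s)`, tangent to the identity -/
def EE (hAC : StAC) (θ : Γ →* (ℝ ≃o ℝ)) (h0 : ∀ g, θ g 0 = 0) (s : ℝ) (hs : 1 ≤ s) :
    Subgroup Γ where
  carrier := {g | Asy (θ g) 1 0 ∧ Asy (θ g) s 0}
  one_mem' := by
    rw [Set.mem_setOf_eq, map_one]
    exact ⟨Asy_of_Tr Tr_one 1, Asy_of_Tr Tr_one s⟩
  mul_mem' := by
    intro a b ha hb
    rw [Set.mem_setOf_eq] at *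
    rw [map_mul]
    have e1 := hAC.1 (θ a) (θ b) 1 0 0 (h0 a) (h0 b) le_rfl hb.1 ha.1 hb.1
    have e2 := hAC.1 (θ a) (θ b) s 0 0 (h0 a) (h0 b) hs hb.1 ha.2 hb.2
    rw [add_zero] at e1 e2
    exact ⟨e1, e2⟩
  inv_mem' := by
    intro a ha
    rw [Set.mem_setOf_eq] at *
    rw [map_inv]
    have e1 := hAC.2.1 (θ a) 1 0 (h0 a) le_rfl ha.1 ha.1
    have e2 := hAC.2.1 (θ a) s 0 (h0 a) hs ha.1 ha.2
    rw [neg_zero] at e1 e2
    exact ⟨e1, e2⟩

theorem mem_EE (hAC : StAC) (θ : Γ →* (ℝ ≃o ℝ)) (h0 : ∀ g, θ g 0 = 0) (s : ℝ) (hs : 1 ≤ s)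
    (g : Γ) : g ∈ EE hAC θ h0 s hs ↔ Asy (θ g) 1 0 ∧ Asy (θ g) s 0 := Iff.rfl

/-- the elements with displacement `o(x ^ (1 + e))` for all `e < d` -/
def BB (hAC : StAC) (θ : Γ →* (ℝ ≃o ℝ)) (h0 : ∀ g, θ g 0 = 0) (d : ℝ) : Subgroup Γ where
  carrier := {g | Asy (θ g) 1 0 ∧ ∀ e, 0 ≤ e → e < d → Asy (θ g) (1 + e) 0}
  one_mem' := by
    rw [Set.mem_setOf_eq, map_one]
    exact ⟨Asy_of_Tr Tr_one 1, fun e _ _ => Asy_of_Tr Tr_one _⟩
  mul_mem' := by
    intro a b ha hb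
    rw [Set.mem_setOf_eq] at *
    have hab : ∀ e, 0 ≤ e → Asy (θ a) (1 + e) 0 → Asy (θ b) (1 + e) 0 →
        Asy (θ (a * b)) (1 + e) 0 := by
      intro e he h1 h2
      exact ((EE hAC θ h0 (1 + e) (by linarith)).mul_mem ⟨ha.1, h1⟩ ⟨hb.1, h2⟩).2
    refine ⟨?_, fun e he1 he2 => hab e he1 (ha.2 e he1 he2) (hb.2 e he1 he2)⟩
    exact ((EE hAC θ h0 1 le_rfl).mul_mem ⟨ha.1, ha.1⟩ ⟨hb.1, hb.1⟩).1
  inv_mem' := by
    intro a ha
    rw [Set.mem_setOf_eq] at *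
    refine ⟨((EE hAC θ h0 1 le_rfl).inv_mem ⟨ha.1, ha.1⟩).1, fun e he1 he2 => ?_⟩
    exact ((EE hAC θ h0 (1 + e) (by linarith)).inv_mem ⟨ha.1, ha.2 e he1 he2⟩).2

theorem mem_BB (hAC : StAC) (θ : Γ →* (ℝ ≃o ℝ)) (h0 : ∀ g, θ g 0 = 0) (d : ℝ) (g : Γ) :
    g ∈ BB hAC θ h0 d ↔ Asy (θ g) 1 0 ∧ ∀ e, 0 ≤ e → e < d → Asy (θ g) (1 + e) 0 := Iff.rfl

/-- powers -/
theorem Asy_pow (hAC : StAC) (θ : Γ →* (ℝ ≃o ℝ)) (h0 : ∀ g, θ g 0 = 0) (s : ℝ) (hs : 1 ≤ s)
    (g : Γ) (b : ℝ) (h1 : Asy (θ g) 1 0) (h2 : Asy (θ g) s b) (n : ℕ) :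
    Asy (θ (g ^ n)) s (n * b) := by
  induction n with
  | zero =>
    rw [pow_zero, map_one, Nat.cast_zero, zero_mul]
    exact Asy_of_Tr Tr_one s
  | succ n ih =>
    rw [pow_succ, map_mul]
    have := hAC.1 (θ (g ^ n)) (θ g) s (n * b) b (h0 _) (h0 _) hs h1 ih h2
    rw [Nat.cast_succ, add_mul, one_mul]
    exact this

/-- part 1 in one direction -/
theorem no_lt (hAC : StAC) (hEX : StEX) (r : ℕ) (θ : Γ →* (ℝ ≃o ℝ)) (hr : SRank Γ r)
    (hgood : ∀ g, Good (θ g)) (g h : Γ) (k l a b : ℝ) (hk : 0 < k) (ha : a ≠ 0)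
    (hb : b ≠ 0) (hg : Dep (θ g) k a) (hh : Dep (θ h) l b) (hkl : k < l) : False := by
  have h0 : ∀ g, θ g 0 = 0 := fun g => (hgood g).1
  obtain ⟨A1, A2, A3, A4, A5⟩ := hAC
  have hAC : StAC := ⟨A1, A2, A3, A4, A5⟩
  have E7 := hEX.2.2.2.2.2.2.1
  have tang : ∀ (x : Γ) (s c : ℝ), 1 < s → Asy (θ x) s c → Asy (θ x) 1 0 := by
    intro x s c hs hx
    exact A3 (θ x) s 1 c hx hs
  -- the sequence
  have seq : ∀ j : ℕ, ∃ x : Γ, ∃ c : ℝ, c ≠ 0 ∧ Dep (θ x) (l + j * k) c := by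
    intro j
    induction j with
    | zero => exact ⟨h, b, hb, by simpa using hh⟩
    | succ j ih =>
      obtain ⟨x, c, hc, hx⟩ := ih
      have hjk : 0 ≤ (j : ℝ) * k := by positivity
      have hm : 0 < l + (j : ℝ) * k := by linarith
      have h1 := A5 (θ g) (θ x) k (l + j * k) a c (h0 g) (h0 x) hk hm hg hx
      rw [← map_commutatorElement] at h1
      have hne : (k - (l + j * k)) * a * c ≠ 0 := by
        refine mul_ne_zero (mul_ne_zero ?_ ha) hc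
        have : k - (l + j * k) < 0 := by linarith
        exact this.ne
      have h2 := tang _ _ _ (by linarith) h1
      rcases E7 _ (hgood ⁅g, x⁆) ((Ra_iff _).2 h2) with hT | ⟨k', a', hk', ha', hD⟩
      · exact absurd (Asy_unique h1 (Asy_of_Tr hT _)) hne
      · have h3 := A4 _ _ _ _ _ hD.1 h1 ha' hne
        have e : k' = l + ((j + 1 : ℕ) : ℝ) * k := by
          push_cast
          linarith [h3.1]
        rw [e] at hD
        exact ⟨_, a', ha', hD⟩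
  choose x c hc hx using seq
  have hl : 0 < l := lt_trans hk hkl
  set d : ℕ → ℝ := fun i => l + ((r + i : ℕ) : ℝ) * k with hd
  have hdpos : ∀ i, 0 < d i := by
    intro i
    have : 0 ≤ ((r + i : ℕ) : ℝ) * k := by positivity
    simp only [hd]; linarith
  have hdmono : ∀ i j, i < j → d i < d j := by
    intro i j hij
    have h1 : ((r + i : ℕ) : ℝ) < ((r + j : ℕ) : ℝ) := by exact_mod_cast (by omega)
    have := mul_lt_mul_of_pos_right h1 hk
    simp only [hd]; linarith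
  have hd0 : ∀ i, d 0 ≤ d i := by
    intro i
    rcases Nat.eq_zero_or_pos i with rfl | hi
    · exact le_rfl
    · exact (hdmono 0 i hi).le
  have hd2 : ∀ i ≤ r, d i < d 0 + d 0 := by
    intro i hi
    have h1 : (i : ℝ) ≤ r := by exact_mod_cast hi
    have := mul_le_mul_of_nonneg_right h1 hk.le
    simp only [hd]
    push_cast
    nlinarith
  have hax : ∀ i, Dep (θ (x (r + i))) (d i) (c (r + i)) := fun i => hx (r + i)
  have ha1 : ∀ i, Asy (θ (x (r + i))) 1 0 := fun i =>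
    tang _ _ _ (by linarith [hdpos i]) (hax i).1
  refine rank_lemma hr (fun i => x (r + i))
    (fun i => EE hAC θ h0 (1 + d i) (by linarith [hdpos i])) ?_ ?_ ?_
  · -- commutators
    have hcl : Subgroup.closure ((fun i => x (r + i)) '' Set.Iic r) ≤ BB hAC θ h0 (d 0) := by
      rw [Subgroup.closure_le]
      rintro _ ⟨i, _, rfl⟩
      refine ⟨ha1 i, fun e _ he2 => ?_⟩
      exact A3 _ (1 + d i) (1 + e) _ (hax i).1 (by linarith [hd0 i])
    have hB : ∀ y ∈ BB hAC θ h0 (d 0), Tr (θ y) ∨ ∃ k' a' : ℝ, d 0 ≤ k' ∧ Dep (θ y) k' a' := by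
      intro y hy
      rcases E7 _ (hgood y) ((Ra_iff _).2 hy.1) with hT | ⟨k', a', hk', ha', hD⟩
      · exact Or.inl hT
      · right
        refine ⟨k', a', ?_, hD⟩
        by_contra hlt
        push Not at hlt
        exact ha' (Asy_unique hD.1 (hy.2 k' hk'.le hlt))
    intro y hy z hz i hi
    have hy' := hB y (hcl hy)
    have hz' := hB z (hcl hz)
    change Asy (θ ⁅y, z⁆) 1 0 ∧ Asy (θ ⁅y, z⁆) (1 + d i) 0
    rw [map_commutatorElement]
    rcases hy' with hT | ⟨k', a', hk', hD⟩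
    · have := Tr_comm_left (h0 z) hT
      exact ⟨Asy_of_Tr this _, Asy_of_Tr this _⟩
    rcases hz' with hT | ⟨l', b', hl', hD'⟩
    · have := Tr_comm_right (h0 y) hT
      exact ⟨Asy_of_Tr this _, Asy_of_Tr this _⟩
    have hp := hdpos 0
    have h5 := A5 _ _ k' l' a' b' (h0 y) (h0 z) (by linarith) (by linarith) hD hD'
    have hi2 := hd2 i hi
    exact ⟨A3 _ _ 1 _ h5 (by linarith), A3 _ _ (1 + d i) _ h5 (by linarith)⟩
  · intro i _ n hn hmem
    have h1 := Asy_pow hAC θ h0 (1 + d i) (by linarith [hdpos i]) (x (r + i)) _ (ha1 i)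
      (hax i).1 n
    have h2 := Asy_unique h1 hmem.2
    have h3 : (n : ℝ) ≠ 0 := by exact_mod_cast hn.ne'
    exact (mul_ne_zero h3 (hc (r + i))) h2
  · intro i j hij _
    exact ⟨ha1 j, A3 _ (1 + d j) (1 + d i) _ (hax j).1 (by linarith [hdmono i j hij])⟩

end

theorem pRA (hAC : StAC) (hEX : StEX) : StRA.{u} := by
  intro Γ _ r θ hr hgood
  have part1 : ∀ (g h : Γ) (k l a b : ℝ), 0 < k → 0 < l → a ≠ 0 → b ≠ 0 → Dep (θ g) k a →
      Dep (θ h) l b → k = l := by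
    intro g h k l a b hk hl ha hb hg hh
    rcases lt_trichotomy k l with hlt | he | hlt
    · exact (no_lt hAC hEX r θ hr hgood g h k l a b hk ha hb hg hh hlt).elim
    · exact he
    · exact (no_lt hAC hEX r θ hr hgood h g l k b a hl hb ha hh hg hlt).elim
  refine ⟨part1, ?_⟩
  intro g h hg hh
  have h0 : ∀ g, θ g 0 = 0 := fun g => (hgood g).1
  have E7 := hEX.2.2.2.2.2.2.1
  obtain ⟨A1, A2, A3, A4, A5⟩ := hAC
  rcases E7 _ (hgood g) hg with hT | ⟨k, a, hk, ha, hD⟩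
  · rw [map_commutatorElement]
    exact Tr_comm_left (h0 h) hT
  rcases E7 _ (hgood h) hh with hT | ⟨l, b, hl, hb, hD'⟩
  · rw [map_commutatorElement]
    exact Tr_comm_right (h0 g) hT
  have e := part1 g h k l a b hk hl ha hb hD hD'
  subst e
  have h5 := A5 _ _ k k a b (h0 g) (h0 h) hk hk hD hD'
  rw [sub_self, zero_mul, zero_mul, ← map_commutatorElement] at h5
  have h6 := A3 _ _ 1 _ h5 (by linarith)
  rcases E7 _ (hgood ⁅g, h⁆) ((Ra_iff _).2 h6) with hT | ⟨k', a', hk', ha', hD2⟩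
  · exact hT
  · exfalso
    have e := part1 g ⁅g, h⁆ k k' a a' hk hk' ha ha' hD hD2
    subst e
    have h7 := A3 _ _ (1 + k) _ h5 (by linarith)
    exact ha' (Asy_unique hD2.1 h7)

end Pool.Agent.Helper40.AH
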